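import Pool.Agent.N748.MM.Lm
import Pool.Agent.Y753.NL.MV2

/-! The characters determine the limits of weighted means over the torus. -/

set_option autoImplicit false

namespace Pool.Agent.N748.MM

open Finset Filter MeasureTheory Topology Complex
open Pool.Agent.Y755 (half_lt_one half_sq)
open Pool.Agent.Y753.NL
open Pool.Agent.H306R2 (lc lc_zero lc_nonneg lc_pos lc_summable)
open UnitAddTorus

/-- the characters span a dense space -/
theorem dens {d : Type*} [Fintype d] {ι : Type*} {l : Filter ι} {Λ : ι → C(UnitAddTorus d, ℂ) →ₗ[ℂ] ℂ}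
    {L : C(UnitAddTorus d, ℂ) →ₗ[ℂ] ℂ} {C : ℝ}
    (hC : ∀ᶠ i in l, ∀ g, ‖Λ i g‖ ≤ C * ‖g‖) (hL : ∀ g, ‖L g‖ ≤ C * ‖g‖)
    (h : ∀ n : d → ℤ, Tendsto (fun i => Λ i (mFourier n)) l (𝓝 (L (mFourier n)))) (g : C(UnitAddTorus d, ℂ)) :
    Tendsto (fun i => Λ i g) l (𝓝 (L g)) := by
  let S : Submodule ℂ C(UnitAddTorus d, ℂ) :=
    { carrier := {g | Tendsto (fun i => Λ i g) l (𝓝 (L g))}
      add_mem' := fun {a b} ha hb => by
        simp only [Set.mem_setOf_eq, map_add] at ha hb ⊢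
        exact ha.add hb
      zero_mem' := by
        simp only [Set.mem_setOf_eq, map_zero]
        exact tendsto_const_nhds
      smul_mem' := fun c a ha => by
        simp only [Set.mem_setOf_eq, map_smul] at ha ⊢
        exact ha.const_smul c }
  have hS : Submodule.span ℂ (Set.range (mFourier (d := d))) ≤ S := by
    rw [Submodule.span_le]
    rintro _ ⟨n, rfl⟩
    exact h n
  have hg : g ∈ (Submodule.span ℂ (Set.range (mFourier (d := d)))).topologicalClosure := by
    rw [span_mFourier_closure_eq_top]; trivial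
  rw [← SetLike.mem_coe, Submodule.topologicalClosure_coe, Metric.mem_closure_iff] at hg
  rw [Metric.tendsto_nhds]
  intro ε hε
  obtain ⟨g', hg', hd⟩ := hg (ε / (3 * (|C| + 1))) (by positivity)
  have h1 : Tendsto (fun i => Λ i g') l (𝓝 (L g')) := hS hg'
  rw [Metric.tendsto_nhds] at h1
  filter_upwards [hC, h1 (ε / 3) (by positivity)] with i hi hi2
  rw [dist_eq_norm] at hd hi2 ⊢
  have e1 : Λ i g - L g = Λ i (g - g') + (Λ i g' - L g') - L (g - g') := by
    rw [map_sub, map_sub]; ring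
  have h2 : C * ‖g - g'‖ ≤ ε / 3 := by
    have h3 : C * ‖g - g'‖ ≤ (|C| + 1) * ‖g - g'‖ := by
      apply mul_le_mul_of_nonneg_right _ (norm_nonneg _)
      linarith [le_abs_self C]
    refine h3.trans ?_
    rw [lt_div_iff₀ (by positivity)] at hd
    linarith
  rw [e1]
  refine lt_of_le_of_lt (norm_sub_le _ _) ?_
  have h4 := norm_add_le (Λ i (g - g')) (Λ i g' - L g')
  have h5 := hi (g - g')
  have h6 := hL (g - g')
  linarith

/-- the point of the torus -/
noncomputable def pt (P : Finset ℕ) (t : ℝ) : UnitAddTorus P := fun p =>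
  ((-(t * Real.log (p : ℕ) / (2 * Real.pi)) : ℝ) : UnitAddCircle)

lemma pt_cont (P : Finset ℕ) : Continuous (pt P) := by
  refine continuous_pi fun p => ?_
  exact (AddCircle.continuous_mk' 1).comp (by fun_prop)

/-- numerators -/
def hN (P : Finset ℕ) (e : ℕ → ℤ) : ℕ := ∏ p ∈ P, p ^ (e p).toNat

/-- denominators -/
def kN (P : Finset ℕ) (e : ℕ → ℤ) : ℕ := ∏ p ∈ P, p ^ (-e p).toNat

lemma hN_ne {P : Finset ℕ} (hP : ∀ p ∈ P, p.Prime) (e : ℕ → ℤ) : hN P e ≠ 0 :=
  Finset.prod_ne_zero_iff.mpr fun p hp => pow_ne_zero _ (hP p hp).ne_zero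

lemma kN_ne {P : Finset ℕ} (hP : ∀ p ∈ P, p.Prime) (e : ℕ → ℤ) : kN P e ≠ 0 :=
  Finset.prod_ne_zero_iff.mpr fun p hp => pow_ne_zero _ (hP p hp).ne_zero

lemma hkN_coprime {P : Finset ℕ} (hP : ∀ p ∈ P, p.Prime) (e : ℕ → ℤ) : (hN P e).Coprime (kN P e) := by
  unfold hN kN
  refine Nat.Coprime.prod_left fun p hp => Nat.Coprime.prod_right fun q hq => ?_
  by_cases h : p = q
  · subst h
    rcases le_total 0 (e p) with h0 | h0
    · have : (-e p).toNat = 0 := Int.toNat_of_nonpos (by omega)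
      rw [this, pow_zero]
      exact Nat.coprime_one_right _
    · have : (e p).toNat = 0 := Int.toNat_of_nonpos h0
      rw [this, pow_zero]
      exact Nat.coprime_one_left _
  · exact ((Nat.coprime_primes (hP p hp) (hP q hq)).mpr h).pow _ _

lemma mF_pt {P : Finset ℕ} (hP : ∀ p ∈ P, p.Prime) (e : ℕ → ℤ) (t : ℝ) :
    mFourier (fun p : P => e p) (pt P t) = tw (hN P e) (kN P e) t := by
  unfold mFourier pt tw
  simp only [ContinuousMap.coe_mk]
  simp_rw [fourier_coe_apply]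
  rw [← Complex.exp_sum]
  congr 1
  have hlog : ∀ f : ℕ → ℕ, Real.log ((∏ p ∈ P, p ^ f p : ℕ) : ℝ) = ∑ p ∈ P, (f p : ℝ) * Real.log p := by
    intro f
    push_cast
    rw [Real.log_prod (fun p hp => pow_ne_zero _ (by exact_mod_cast (hP p hp).ne_zero))]
    exact Finset.sum_congr rfl fun p _ => Real.log_pow _ _
  have e1 : Real.log (kN P e) - Real.log (hN P e) = - ∑ p ∈ P, (e p : ℝ) * Real.log p := by
    unfold kN hN
    rw [hlog, hlog, ← Finset.sum_sub_distrib, ← Finset.sum_neg_distrib]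
    refine Finset.sum_congr rfl fun p _ => ?_
    have h2 : (((-e p).toNat : ℤ) : ℝ) - (((e p).toNat : ℤ) : ℝ) = -(e p : ℝ) := by
      rcases le_total 0 (e p) with h0 | h0
      · rw [Int.toNat_of_nonpos (by omega : -e p ≤ 0), Int.toNat_of_nonneg h0]; simp
      · rw [Int.toNat_of_nonpos h0, Int.toNat_of_nonneg (by omega : 0 ≤ -e p)]; push_cast; ring
    push_cast at h2 ⊢
    rw [← sub_mul, h2]; ring
  rw [e1, ← Finset.sum_coe_sort P (fun p => (e p : ℝ) * Real.log p)]
  push_cast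
  rw [neg_mul, neg_mul, Finset.sum_mul, Finset.sum_mul, ← Finset.sum_neg_distrib]
  refine Finset.sum_congr rfl fun p _ => ?_
  have hpi : (Real.pi : ℂ) ≠ 0 := by exact_mod_cast Real.pi_ne_zero
  field_simp

lemma fac_prod {P : Finset ℕ} (hP : ∀ p ∈ P, p.Prime) (f : ℕ → ℕ) {q : ℕ} (hq : q ∈ P) :
    (∏ p ∈ P, p ^ f p).factorization q = f q := by
  rw [Nat.factorization_prod (fun p hp => pow_ne_zero _ (hP p hp).ne_zero), Finsupp.coe_finsetSum, Finset.sum_apply]
  rw [Finset.sum_eq_single q]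
  · rw [(hP q hq).factorization_pow, Finsupp.single_eq_same]
  · intro p hp hne
    rw [(hP p hp).factorization_pow, Finsupp.single_eq_of_ne hne.symm]
  · intro h; exact absurd hq h

lemma Nu_prod {α : ℝ} (hα : 0 < α) {P : Finset ℕ} (hP : ∀ p ∈ P, p.Prime) (e : ℕ → ℤ) :
    Nu α (hN P e) (kN P e) = ∏ p ∈ P, nu α p (e p).natAbs := by
  have e1 : hN P e * kN P e = ∏ p ∈ P, p ^ (e p).natAbs := by
    unfold hN kN
    rw [← Finset.prod_mul_distrib]
    refine Finset.prod_congr rfl fun p _ => ?_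
    rw [← pow_add]
    congr 1
    omega
  unfold Nu
  rw [e1]
  have hsub : (∏ p ∈ P, p ^ (e p).natAbs).primeFactors ⊆ P := by
    intro q hq
    rw [Nat.mem_primeFactors] at hq
    obtain ⟨p, hp, hd⟩ := (Prime.dvd_finsetProd_iff hq.1.prime _).mp hq.2.1
    have := (Nat.prime_dvd_prime_iff_eq hq.1 (hP p hp)).mp (hq.1.dvd_of_dvd_pow hd)
    rwa [this]
  rw [Finset.prod_subset hsub]
  · refine Finset.prod_congr rfl fun p hp => ?_
    rw [fac_prod hP _ hp]
  · intro p hp hn
    rw [← Nat.support_factorization, Finsupp.notMem_support_iff] at hn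
    rw [hn, nu_zero hα (hP p hp)]

/-- the product of the tilted local measures -/
noncomputable def MP (α : ℝ) (P : Finset ℕ) : Measure (UnitAddTorus P) := Measure.pi fun p : P => lm α p

/-- all elements are prime -/
def AP (P : Finset ℕ) : Prop := ∀ p ∈ P, p.Prime

lemma MP_prob {α : ℝ} {P : Finset ℕ} (hP : ∀ p ∈ P, p.Prime) : IsProbabilityMeasure (MP α P) := by
  have : ∀ p : P, IsProbabilityMeasure (lm α p) := fun p => lm_prob (hP p p.2)
  unfold MP
  infer_instance

lemma MP_four {α : ℝ} (hα : 0 < α) {P : Finset ℕ} (hP : ∀ p ∈ P, p.Prime) (e : ℕ → ℤ) :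
    ∫ x, mFourier (fun p : P => e p) x ∂(MP α P) = ((∏ p ∈ P, nu α p (e p).natAbs : ℝ) : ℂ) := by
  have : ∀ p : P, IsProbabilityMeasure (lm α p) := fun p => lm_prob (hP p p.2)
  unfold MP mFourier
  simp only [ContinuousMap.coe_mk]
  rw [integral_fintype_prod_eq_prod (𝕜 := ℂ) (fun p : P => (fourier (e p) : UnitAddCircle → ℂ))]
  rw [← Finset.prod_coe_sort P (fun p => nu α p (e p).natAbs)]
  push_cast
  exact Finset.prod_congr rfl fun p _ => lm_four hα (hP p p.2) _

lemma cintP {α : ℝ} {P : Finset ℕ} (hP : ∀ p ∈ P, p.Prime) (g : C(UnitAddTorus P, ℂ)) :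
    Integrable g (MP α P) := by
  have := MP_prob (α := α) hP
  exact g.continuous.integrable_of_hasCompactSupport (HasCompactSupport.of_compactSpace _)

lemma MP_bd {α : ℝ} {P : Finset ℕ} (hP : ∀ p ∈ P, p.Prime) (g : C(UnitAddTorus P, ℂ)) :
    ‖∫ x, g x ∂(MP α P)‖ ≤ ‖g‖ := by
  have := MP_prob (α := α) hP
  have h := norm_integral_le_of_norm_le_const (μ := MP α P) (f := g) (C := ‖g‖)
    (Filter.Eventually.of_forall fun x => g.norm_coe_le_norm x)
  simpa using h

end Pool.Agent.N748.MM
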