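import Pool.Agent.N748.MM.Sm
import Pool.Agent.Helper240.ZU.C1

set_option autoImplicit false

/-! The mean square of the product of a polynomial of the class `Sm` with a polynomial over rough numbers. -/

namespace Pool.Agent.N748.MM

open Finset MonoidAlgebra
open Pool.Agent.Y755
open Pool.Agent.Y753.NL
open Pool.Agent.W184.NZ
open ZU (tail)

variable {I : Finset ℕ} {f : P1} {κ δ : ℝ}

lemma coeff_pow (hf : Sm I f) (hκ : 0 ≤ κ) {b : ℕ} (hb : b ≠ 0)
    (h : ∀ q : ℕ, q.Prime → q ∣ b → (2:ℝ) ≤ (q:ℝ) ^ κ) (c : ℕ) :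
    f.coeff (b * c) ≤ (b:ℝ) ^ κ * f.coeff c := by
  induction b using Nat.recOnMul generalizing c with
  | zero => exact absurd rfl hb
  | one => simp
  | prime p hp =>
    refine (hf.sub p c hp).trans (mul_le_mul_of_nonneg_right ?_ (hf.nn c))
    exact h p hp (dvd_refl _)
  | mul a b iha ihb =>
    have ha0 : a ≠ 0 := left_ne_zero_of_mul hb
    have hb0 : b ≠ 0 := right_ne_zero_of_mul hb
    have h1 := iha ha0 (fun q hq hd => h q hq (hd.mul_right b)) (b * c)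
    have h2 := ihb hb0 (fun q hq hd => h q hq (hd.mul_left a)) c
    rw [mul_assoc]
    refine h1.trans ?_
    have h3 := mul_le_mul_of_nonneg_left h2 (by positivity : 0 ≤ (a:ℝ) ^ κ)
    refine h3.trans (le_of_eq ?_)
    push_cast
    rw [Real.mul_rpow (Nat.cast_nonneg _) (Nat.cast_nonneg _)]
    ring

lemma single_coeff {n : ℕ} (hn : n ≠ 0) (g : P1) (x : ℕ) : (single n (1:ℝ) * g).coeff (n * x) = g.coeff x := by
  rw [coeff_single_mul_eq_mul_coeff x, one_mul]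
  intro m' _
  exact ⟨fun h => Nat.eq_of_mul_eq_mul_left (Nat.pos_of_ne_zero hn) h, fun h => by rw [h]⟩

lemma single_coeff_ndvd {n m : ℕ} (g : P1) (h : ¬ n ∣ m) : (single n (1:ℝ) * g).coeff m = 0 :=
  coeff_single_mul_of_forall_mul_ne _ _ fun d hd => h ⟨d, hd.symm⟩

/-- the basic inequality -/
lemma ip_shift (hf : Sm I f) (hδ : 0 ≤ δ) (hκ : 0 ≤ κ) {n n' : ℕ} (hn : n ≠ 0) (hn' : n' ≠ 0)
    (h : ∀ q : ℕ, q.Prime → q ∣ n → (2:ℝ) ≤ (q:ℝ) ^ κ) (h' : ∀ q : ℕ, q.Prime → q ∣ n' → (2:ℝ) ≤ (q:ℝ) ^ κ) :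
    ip δ (single n 1 * f) (single n' 1 * f) ≤
      ((n:ℝ) * n') ^ (κ - 1) * (Nat.gcd n n' : ℝ) * ip δ f f := by
  classical
  obtain ⟨g, a, b, hg, hab, ea, eb⟩ : ∃ g a b : ℕ, 0 < g ∧ Nat.Coprime a b ∧ n = a * g ∧ n' = b * g := by
    obtain ⟨g, a, b, hg, hab, ea, eb⟩ := Nat.exists_coprime' (Nat.gcd_pos_of_pos_left n' (Nat.pos_of_ne_zero hn))
    exact ⟨g, a, b, hg, hab, ea, eb⟩
  have hgcd : Nat.gcd n n' = g := by
    rw [ea, eb, Nat.gcd_mul_right, hab.gcd_eq_one, one_mul]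
  rw [hgcd]
  have ha0 : a ≠ 0 := by rintro rfl; exact hn (by rw [ea, zero_mul])
  have hb0 : b ≠ 0 := by rintro rfl; exact hn' (by rw [eb, zero_mul])
  have hg0 : g ≠ 0 := hg.ne'
  set L := a * b * g with hL
  have hL0 : L ≠ 0 := by positivity
  have hLn : L = n * b := by rw [hL, ea]; ring
  have hLn' : L = n' * a := by rw [hL, eb]; ring
  set u := single n (1:ℝ) * f with hu
  set v := single n' (1:ℝ) * f with hv
  rw [ip_eq δ u v (subset_refl _)]
  have hz : ∀ m ∈ u.coeff.support, ¬ L ∣ m → u.coeff m * v.coeff m * wδ δ m = 0 := by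
    intro m _ hm
    by_cases h1 : n ∣ m
    · by_cases h2 : n' ∣ m
      · exfalso
        apply hm
        have h3 : Nat.lcm n n' ∣ m := Nat.lcm_dvd h1 h2
        have h4 : Nat.lcm n n' = L := by
          rw [ea, eb, Nat.lcm_mul_right, hab.lcm_eq_mul]
        rwa [h4] at h3
      · rw [hv, single_coeff_ndvd f h2, mul_zero, zero_mul]
    · rw [hu, single_coeff_ndvd f h1, zero_mul, zero_mul]
  have e1 : ∑ m ∈ u.coeff.support, u.coeff m * v.coeff m * wδ δ m =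
      ∑ m ∈ u.coeff.support.filter (fun m => L ∣ m), u.coeff m * v.coeff m * wδ δ m := by
    rw [sum_filter]
    refine sum_congr rfl fun m hm => ?_
    split_ifs with h1
    · rfl
    · exact hz m hm h1
  rw [e1]
  set F := u.coeff.support.filter (fun m => L ∣ m) with hF
  have hm0 : ∀ m ∈ F, ∃ c, c ≠ 0 ∧ m = L * c := by
    intro m hm
    rw [hF, mem_filter] at hm
    obtain ⟨c, hc⟩ := hm.2
    refine ⟨c, ?_, hc⟩
    rintro rfl
    rw [mul_zero] at hc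
    rw [hc] at hm
    have h5 : u.coeff 0 = f.coeff 0 := by
      have := single_coeff hn f 0
      rwa [mul_zero] at this
    have h6 := Finsupp.mem_support_iff.mp hm.1
    rw [h5] at h6
    exact (hf.mem 0 (Finsupp.mem_support_iff.mpr h6)).1 rfl
  have hT : ∀ m ∈ F, u.coeff m * v.coeff m * wδ δ m ≤
      (((n:ℝ) * n') ^ (κ - 1) * (g:ℝ)) * (f.coeff (m / L) * f.coeff (m / L) * wδ δ (m / L)) := by
    intro m hm
    obtain ⟨c, hc0, rfl⟩ := hm0 m hm
    rw [Nat.mul_div_cancel_left c (Nat.pos_of_ne_zero hL0)]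
    have e2 : u.coeff (L * c) = f.coeff (b * c) := by rw [hLn, mul_assoc, hu, single_coeff hn]
    have e3 : v.coeff (L * c) = f.coeff (a * c) := by rw [hLn', mul_assoc, hv, single_coeff hn']
    rw [e2, e3]
    have k1 := coeff_pow hf hκ hb0 (fun q hq hd => h' q hq (by rw [eb]; exact hd.mul_right g)) c
    have k2 := coeff_pow hf hκ ha0 (fun q hq hd => h q hq (by rw [ea]; exact hd.mul_right g)) c
    have n1 := hf.nn (b * c)
    have n2 := hf.nn (a * c)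
    have n3 := hf.nn c
    have ap : (0:ℝ) < a := by exact_mod_cast Nat.pos_of_ne_zero ha0
    have bp : (0:ℝ) < b := by exact_mod_cast Nat.pos_of_ne_zero hb0
    have gp : (0:ℝ) < g := by exact_mod_cast hg
    have cp : (0:ℝ) < c := by exact_mod_cast Nat.pos_of_ne_zero hc0
    have Lp : (0:ℝ) < L := by exact_mod_cast Nat.pos_of_ne_zero hL0
    have g1 : (1:ℝ) ≤ g := by exact_mod_cast hg
    have hLr : (L:ℝ) = a * b * g := by rw [hL]; push_cast; ring
    have kw : wδ δ (L * c) ≤ (1 / (L:ℝ)) * wδ δ c := by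
      unfold wδ
      push_cast
      have h1 : ((L:ℝ) * c) ^ (-(2 * δ)) ≤ (c:ℝ) ^ (-(2 * δ)) := by
        refine Real.rpow_le_rpow_of_nonpos cp ?_ (by linarith)
        have : (1:ℝ) ≤ L := by exact_mod_cast Nat.pos_of_ne_zero hL0
        nlinarith
      calc ((L:ℝ) * c) ^ (-(2 * δ)) * (1 / ((L:ℝ) * c)) ≤ (c:ℝ) ^ (-(2 * δ)) * (1 / ((L:ℝ) * c)) :=
            mul_le_mul_of_nonneg_right h1 (by positivity)
        _ = _ := by field_simp
    have hfin : ((b:ℝ) ^ κ * (a:ℝ) ^ κ) * (1 / (L:ℝ)) ≤ ((n:ℝ) * n') ^ (κ - 1) * (g:ℝ) := by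
      have en : (n:ℝ) * n' = (a * b) * ((g:ℝ) ^ (2:ℝ)) := by
        rw [ea, eb]; push_cast
        rw [Real.rpow_two]; ring
      rw [en, hLr, Real.mul_rpow (by positivity) (by positivity), ← Real.mul_rpow bp.le ap.le,
        Real.rpow_sub (by positivity : (0:ℝ) < a * b), Real.rpow_one, ← Real.rpow_mul gp.le, mul_comm (b:ℝ) a]
      have h2 : (1:ℝ) ≤ (g:ℝ) ^ (2 * (κ - 1)) * g * g := by
        have : (g:ℝ) ^ (2 * (κ - 1)) * g * g = (g:ℝ) ^ (2 * κ) := by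
          have e5 : (2:ℝ) * κ = 2 * (κ - 1) + 1 + 1 := by ring
          rw [e5, Real.rpow_add gp, Real.rpow_add gp, Real.rpow_one]
        rw [this]
        exact Real.one_le_rpow g1 (by linarith)
      have h3 : 0 ≤ ((a:ℝ) * b) ^ κ / (a * b) := by positivity
      calc ((a:ℝ) * b) ^ κ * (1 / (a * b * g)) = ((a:ℝ) * b) ^ κ / (a * b) * (1 / g) := by field_simp
        _ ≤ ((a:ℝ) * b) ^ κ / (a * b) * ((g:ℝ) ^ (2 * (κ - 1)) * g) := by
            refine mul_le_mul_of_nonneg_left ?_ h3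
            rw [div_le_iff₀ gp]; exact h2
        _ = _ := by ring
    have w0' := wδ_nonneg δ (L * c)
    have w1 := wδ_nonneg δ c
    calc f.coeff (b * c) * f.coeff (a * c) * wδ δ (L * c)
        ≤ ((b:ℝ) ^ κ * f.coeff c) * ((a:ℝ) ^ κ * f.coeff c) * ((1 / (L:ℝ)) * wδ δ c) := by
          refine mul_le_mul (mul_le_mul k1 k2 n2 (by positivity)) kw w0' (by positivity)
      _ = (((b:ℝ) ^ κ * (a:ℝ) ^ κ) * (1 / (L:ℝ))) * (f.coeff c * f.coeff c * wδ δ c) := by ring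
      _ ≤ _ := mul_le_mul_of_nonneg_right hfin (by positivity)
  refine (sum_le_sum hT).trans ?_
  rw [← mul_sum]
  refine mul_le_mul_of_nonneg_left ?_ (by positivity)
  have hinj : Set.InjOn (fun m => m / L) (F : Set ℕ) := by
    intro x hx y hy hxy
    obtain ⟨c, -, rfl⟩ := hm0 x hx
    obtain ⟨d, -, rfl⟩ := hm0 y hy
    simp only [Nat.mul_div_cancel_left _ (Nat.pos_of_ne_zero hL0)] at hxy
    rw [hxy]
  rw [← sum_image (f := fun c => f.coeff c * f.coeff c * wδ δ c) hinj,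
    ip_eq δ f f (s := f.coeff.support ∪ F.image (fun m => m / L)) subset_union_left]
  refine sum_le_sum_of_subset_of_nonneg subset_union_right fun c _ _ => ?_
  exact mul_nonneg (mul_self_nonneg _) (wδ_nonneg _ _)

/-- sums over pairs of rough numbers -/
lemma gcd_sum {s : ℝ} (hs : 1 < s) {M : ℕ} {F : Finset ℕ}
    (hF : ∀ n ∈ F, M < n ∧ n ≠ 0 ∧ ∀ d : ℕ, d ∣ n → d ≠ 1 → M < d) :
    ∑ n ∈ F, ∑ n' ∈ F, ((n:ℝ) * n') ^ (-s) * (Nat.gcd n n' : ℝ) ≤
      tail (s / 2) M ^ 2 + tail (s / 2) 0 ^ 2 * tail (s - 1 / 2) M := by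
  classical
  obtain ⟨-, t1⟩ := ZU.J_c1.tail_tendsto (s / 2) (by linarith)
  obtain ⟨-, t2⟩ := ZU.J_c1.tail_tendsto (s - 1 / 2) (by linarith)
  have e2 : 2 * (s / 2) = s := by ring
  rw [e2] at t1
  -- the set of the greatest common divisors
  set G := (F ×ˢ F).image (fun q => Nat.gcd q.1 q.2) \ {1} with hG
  have hGM : ∀ g ∈ G, M < g := by
    intro g hg
    rw [hG, mem_sdiff, mem_image, mem_singleton] at hg
    obtain ⟨⟨q, hq, rfl⟩, h1⟩ := hg
    rw [mem_product] at hq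
    exact (hF q.1 hq.1).2.2 _ (Nat.gcd_dvd_left _ _) h1
  have hG0 : ∀ g ∈ G, g ≠ 0 := fun g hg => by have := hGM g hg; omega
  have hpt : ∀ n ∈ F, ∀ n' ∈ F, (Nat.gcd n n' : ℝ) ≤ 1 + ∑ g ∈ G, if g ∣ n ∧ g ∣ n' then (g:ℝ) else 0 := by
    intro n hn n' hn'
    have hnn : 0 ≤ ∑ g ∈ G, if g ∣ n ∧ g ∣ n' then (g:ℝ) else 0 := sum_nonneg fun g _ => by split_ifs <;> positivity
    by_cases h1 : Nat.gcd n n' = 1
    · rw [h1]; push_cast; linarith
    · have hmem : Nat.gcd n n' ∈ G := by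
        rw [hG, mem_sdiff, mem_image, mem_singleton]
        exact ⟨⟨(n, n'), mem_product.mpr ⟨hn, hn'⟩, rfl⟩, h1⟩
      have := single_le_sum (f := fun g : ℕ => if g ∣ n ∧ g ∣ n' then (g:ℝ) else 0)
        (fun g _ => by split_ifs <;> positivity) hmem
      simp only [Nat.gcd_dvd_left, Nat.gcd_dvd_right, and_self, if_true] at this
      linarith
  have hmulr : ∀ n n' : ℕ, ((n:ℝ) * n') ^ (-s) = (n:ℝ) ^ (-s) * (n':ℝ) ^ (-s) := fun n n' =>
    Real.mul_rpow (Nat.cast_nonneg _) (Nat.cast_nonneg _)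
  have hF1 : 0 ≤ ∑ n ∈ F, (n:ℝ) ^ (-s) := sum_nonneg fun n _ => by positivity
  have b1 : ∑ n ∈ F, (n:ℝ) ^ (-s) ≤ tail (s / 2) M := t1 M F fun n hn => (hF n hn).1
  -- the part of a divisor
  have b2 : ∀ g ∈ G, ∑ n ∈ F, (if g ∣ n then (n:ℝ) ^ (-s) else 0) ≤ (g:ℝ) ^ (-s) * tail (s / 2) 0 := by
    intro g hg
    have hg0 := hG0 g hg
    rw [← sum_filter]
    have hinj : Set.InjOn (fun m => m / g) ((F.filter fun n => g ∣ n : Finset ℕ) : Set ℕ) := by
      intro x hx y hy hxy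
      simp only [coe_filter, Set.mem_setOf_eq] at hx hy
      obtain ⟨c, rfl⟩ := hx.2
      obtain ⟨d, rfl⟩ := hy.2
      simp only [Nat.mul_div_cancel_left _ (Nat.pos_of_ne_zero hg0)] at hxy
      rw [hxy]
    have e3 : ∀ n ∈ F.filter (fun n => g ∣ n), (n:ℝ) ^ (-s) = (g:ℝ) ^ (-s) * ((n / g : ℕ) : ℝ) ^ (-s) := by
      intro n hn
      rw [mem_filter] at hn
      obtain ⟨c, rfl⟩ := hn.2
      rw [Nat.mul_div_cancel_left _ (Nat.pos_of_ne_zero hg0)]
      push_cast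
      exact hmulr g c
    rw [sum_congr rfl e3, ← mul_sum, ← sum_image (f := fun c : ℕ => (c:ℝ) ^ (-s)) hinj]
    refine mul_le_mul_of_nonneg_left (t1 0 _ fun c hc => ?_) (by positivity)
    rw [mem_image] at hc
    obtain ⟨n, hn, rfl⟩ := hc
    rw [mem_filter] at hn
    exact Nat.div_pos (Nat.le_of_dvd (Nat.pos_of_ne_zero (hF n hn.1).2.1) hn.2) (Nat.pos_of_ne_zero hg0)
  have t0 : 0 ≤ tail (s / 2) 0 := by
    have := t1 0 ∅ (by simp)
    simpa using this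
  have step : ∑ n ∈ F, ∑ n' ∈ F, ((n:ℝ) * n') ^ (-s) * (Nat.gcd n n' : ℝ) ≤
      (∑ n ∈ F, (n:ℝ) ^ (-s)) ^ 2 + ∑ g ∈ G, (g:ℝ) * (∑ n ∈ F, (if g ∣ n then (n:ℝ) ^ (-s) else 0)) ^ 2 := by
    calc ∑ n ∈ F, ∑ n' ∈ F, ((n:ℝ) * n') ^ (-s) * (Nat.gcd n n' : ℝ)
        ≤ ∑ n ∈ F, ∑ n' ∈ F, ((n:ℝ) * n') ^ (-s) * (1 + ∑ g ∈ G, if g ∣ n ∧ g ∣ n' then (g:ℝ) else 0) :=
          sum_le_sum fun n hn => sum_le_sum fun n' hn' => mul_le_mul_of_nonneg_left (hpt n hn n' hn') (by positivity)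
      _ = _ := by
          simp_rw [mul_add, mul_one, sum_add_distrib]
          congr 1
          · simp_rw [hmulr]
            rw [pow_two, sum_mul_sum]
          · have e4 : ∀ n ∈ F, ∑ n' ∈ F, ((n:ℝ) * n') ^ (-s) * (∑ g ∈ G, if g ∣ n ∧ g ∣ n' then (g:ℝ) else 0) =
                ∑ g ∈ G, ∑ n' ∈ F, (g:ℝ) * ((if g ∣ n then (n:ℝ) ^ (-s) else 0) * (if g ∣ n' then (n':ℝ) ^ (-s) else 0)) := by
              intro n _
              rw [sum_comm]
              refine sum_congr rfl fun n' _ => ?_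
              rw [mul_sum]
              refine sum_congr rfl fun g _ => ?_
              rw [hmulr]
              by_cases h1 : g ∣ n <;> by_cases h2 : g ∣ n' <;> simp [h1, h2] <;> ring
            rw [sum_congr rfl e4, sum_comm]
            refine sum_congr rfl fun g _ => ?_
            rw [pow_two, sum_mul_sum, mul_sum]
            refine sum_congr rfl fun n _ => ?_
            rw [mul_sum]
  refine step.trans (add_le_add (pow_le_pow_left₀ hF1 b1 2) ?_)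
  calc ∑ g ∈ G, (g:ℝ) * (∑ n ∈ F, (if g ∣ n then (n:ℝ) ^ (-s) else 0)) ^ 2
      ≤ ∑ g ∈ G, (g:ℝ) * ((g:ℝ) ^ (-s) * tail (s / 2) 0) ^ 2 := by
        refine sum_le_sum fun g hg => mul_le_mul_of_nonneg_left ?_ (Nat.cast_nonneg _)
        refine pow_le_pow_left₀ (sum_nonneg fun n _ => ?_) (b2 g hg) 2
        split_ifs <;> positivity
    _ = tail (s / 2) 0 ^ 2 * ∑ g ∈ G, (g:ℝ) ^ (-(2 * (s - 1 / 2))) := by
        rw [mul_sum]
        refine sum_congr rfl fun g hg => ?_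
        have gp : (0:ℝ) < g := by exact_mod_cast Nat.pos_of_ne_zero (hG0 g hg)
        have e6 : (g:ℝ) ^ (-(2 * (s - 1 / 2))) = (g:ℝ) * ((g:ℝ) ^ (-s) * (g:ℝ) ^ (-s)) := by
          have e5 : -(2 * (s - 1 / 2)) = 1 + (-s + -s) := by ring
          rw [e5, Real.rpow_add gp, Real.rpow_add gp, Real.rpow_one]
        rw [e6]; ring
    _ ≤ _ := mul_le_mul_of_nonneg_left (t2 M G hGM) (by positivity)

/-- the constant for `M`-rough numbers -/
noncomputable def kM (s : ℝ) (M : ℕ) : ℝ := tail (s / 2) M ^ 2 + tail (s / 2) 0 ^ 2 * tail (s - 1 / 2) M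

lemma kM_tendsto {s : ℝ} (hs : 1 < s) : Filter.Tendsto (kM s) Filter.atTop (nhds 0) := by
  unfold kM
  have t1 := (ZU.J_c1.tail_tendsto (s / 2) (by linarith)).1
  have t2 := (ZU.J_c1.tail_tendsto (s - 1 / 2) (by linarith)).1
  have := (t1.pow 2).add (t2.const_mul (tail (s / 2) 0 ^ 2))
  simpa using this

/-- the product with a polynomial over rough numbers -/
lemma ip_rough (hf : Sm I f) (hδ : 0 ≤ δ) (hκ : 0 ≤ κ) {M : ℕ} (hM : (2:ℝ) ≤ (M:ℝ) ^ κ) {e : ℝ}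
    (hs : 1 < 1 - κ - e) {F : Finset ℕ} (hF : ∀ n ∈ F, n ≠ 0 ∧ n ≠ 1 ∧ ∀ q : ℕ, q.Prime → q ∣ n → M < q) {d : ℕ → ℝ}
    (hd : ∀ n ∈ F, |d n| ≤ (n:ℝ) ^ e) :
    ip δ (f * ∑ n ∈ F, d n • single n 1) (f * ∑ n ∈ F, d n • single n 1) ≤ kM (1 - κ - e) M * ip δ f f := by
  have hB := ip_self_nonneg δ f
  have hrough : ∀ n ∈ F, M < n ∧ n ≠ 0 ∧ ∀ g : ℕ, g ∣ n → g ≠ 1 → M < g := by
    intro n hn
    obtain ⟨h0, h1, hq⟩ := hF n hn
    have key : ∀ g : ℕ, g ∣ n → g ≠ 1 → M < g := by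
      intro g hg hg1
      obtain ⟨q, hqp, hqg⟩ := Nat.exists_prime_and_dvd hg1
      exact lt_of_lt_of_le (hq q hqp (hqg.trans hg))
        (Nat.le_of_dvd (Nat.pos_of_ne_zero fun h => h0 (by rw [h] at hg; exact Nat.eq_zero_of_zero_dvd hg)) hqg)
    exact ⟨key n (dvd_refl _) h1, h0, key⟩
  have hq2 : ∀ n ∈ F, ∀ q : ℕ, q.Prime → q ∣ n → (2:ℝ) ≤ (q:ℝ) ^ κ := by
    intro n hn q hqp hqn
    refine hM.trans (Real.rpow_le_rpow (Nat.cast_nonneg _) ?_ hκ)
    exact_mod_cast ((hF n hn).2.2 q hqp hqn).le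
  have e1 : ip δ (f * ∑ n ∈ F, d n • single n 1) (f * ∑ n ∈ F, d n • single n 1) =
      ∑ n ∈ F, ∑ n' ∈ F, d n * (d n' * ip δ (single n 1 * f) (single n' 1 * f)) := by
    have e2 : f * ∑ n ∈ F, d n • single n 1 = ∑ n ∈ F, d n • (single n 1 * f) := by
      rw [mul_sum]
      refine sum_congr rfl fun n _ => ?_
      rw [mul_smul_comm, mul_comm]
    rw [e2, ip_sum_left]
    refine sum_congr rfl fun n _ => ?_
    rw [ip_sum_right]
    refine sum_congr rfl fun n' _ => ?_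
    rw [ip_smul_left, ip_smul_right]
  rw [e1]
  have hsup : ∀ n, ∀ m, 0 ≤ (single n (1:ℝ) * f).coeff m := by
    intro n m
    refine mul_coeff_nonneg (fun m => ?_) hf.nn m
    rw [coeff_single, Finsupp.single_apply]
    split_ifs <;> norm_num
  have hnn : ∀ n n', 0 ≤ ip δ (single n 1 * f) (single n' 1 * f) := by
    intro n n'
    rw [ip_eq δ _ _ (subset_refl _)]
    exact sum_nonneg fun m _ => mul_nonneg (mul_nonneg (hsup n m) (hsup n' m)) (wδ_nonneg _ _)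
  have h1 : ∀ n ∈ F, ∀ n' ∈ F, d n * (d n' * ip δ (single n 1 * f) (single n' 1 * f)) ≤
      ((n:ℝ) * n') ^ (-(1 - κ - e)) * (Nat.gcd n n' : ℝ) * ip δ f f := by
    intro n hn n' hn'
    have a1 := hd n hn
    have a2 := hd n' hn'
    have a3 := ip_shift hf hδ hκ (hF n hn).1 (hF n' hn').1 (hq2 n hn) (hq2 n' hn')
    have np : (0:ℝ) < n := by exact_mod_cast Nat.pos_of_ne_zero (hF n hn).1
    have np' : (0:ℝ) < n' := by exact_mod_cast Nat.pos_of_ne_zero (hF n' hn').1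
    calc d n * (d n' * ip δ (single n 1 * f) (single n' 1 * f))
        ≤ |d n| * (|d n'| * ip δ (single n 1 * f) (single n' 1 * f)) := by
          rw [← mul_assoc, ← mul_assoc]
          refine mul_le_mul_of_nonneg_right ?_ (hnn n n')
          rw [← abs_mul]
          exact le_abs_self _
      _ ≤ (n:ℝ) ^ e * ((n':ℝ) ^ e * (((n:ℝ) * n') ^ (κ - 1) * (Nat.gcd n n' : ℝ) * ip δ f f)) := by
          refine mul_le_mul a1 ?_ (mul_nonneg (abs_nonneg _) (hnn n n')) (by positivity)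
          exact mul_le_mul a2 a3 (hnn n n') (by positivity)
      _ = _ := by
          have e5 : -(1 - κ - e) = e + (κ - 1) := by ring
          have e6 : ((n:ℝ) * n') ^ e = (n:ℝ) ^ e * (n':ℝ) ^ e := Real.mul_rpow np.le np'.le
          rw [e5, Real.rpow_add (by positivity), e6]
          ring
  refine (sum_le_sum fun n hn => sum_le_sum fun n' hn' => h1 n hn n' hn').trans ?_
  simp_rw [← sum_mul]
  exact mul_le_mul_of_nonneg_right (gcd_sum hs hrough) hB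

end Pool.Agent.N748.MM
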