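import Pool.Agent.Y753.NL.Small2
import Pool.Agent.TH803.TW.AP
import Mathlib.Analysis.Fourier.AddCircleMulti

/-! The tilted local measures and their Fourier coefficients. -/

set_option autoImplicit false

namespace Pool.Agent.N748.MM

open Finset Filter MeasureTheory Topology Complex
open Pool.Agent.Y755 (half_lt_one half_sq)
open Pool.Agent.Y753.NL
open Pool.Agent.H306R2 (lc lc_zero lc_nonneg lc_pos lc_summable)
open scoped ComplexConjugate

lemma ser_summable {α : ℝ} (hα : 0 < α) {r : ℝ} (hr : 0 < r) (hr1 : r < 1) {x : ℂ} (hx : ‖x‖ ≤ r) :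
    Summable fun j : ℕ => (lc α j : ℂ) * x ^ j := by
  refine Summable.of_norm_bounded (lc_summable hα hr hr1) fun j => ?_
  rw [norm_mul, norm_pow, norm_real, Real.norm_of_nonneg (lc_nonneg hα.le j)]
  exact mul_le_mul_of_nonneg_left (pow_le_pow_left₀ (norm_nonneg _) hx j) (lc_nonneg hα.le j)

/-- the absolute value of the power series of `(1-x)^{-α}` -/
lemma ser_norm {α : ℝ} (hα : 0 < α) {r : ℝ} (hr : 0 < r) (hr1 : r < 1) {x : ℂ} (hx : ‖x‖ ≤ r) :
    ‖1 - x‖ ^ α * ‖∑' j : ℕ, (lc α j : ℂ) * x ^ j‖ = 1 := by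
  have h1 := (ser_summable hα hr hr1 hx).hasSum.tendsto_sum_nat
  have h2 : Tendsto (fun K : ℕ => ‖1 - x‖ ^ α * ‖∑ j ∈ range (K + 1), (lc α j : ℂ) * x ^ j‖) atTop
      (𝓝 (‖1 - x‖ ^ α * ‖∑' j : ℕ, (lc α j : ℂ) * x ^ j‖)) :=
    ((h1.comp (tendsto_add_atTop_nat 1)).norm).const_mul _
  have h3 : Tendsto (fun K : ℕ => ‖1 - x‖ ^ α * ‖∑ j ∈ range (K + 1), (lc α j : ℂ) * x ^ j‖) atTop
      (𝓝 1) := by
    rw [Metric.tendsto_atTop]
    intro ε hε
    obtain ⟨K0, hK0⟩ := loc_unif hα hr hr1 (half_pos hε)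
    refine ⟨K0, fun K hK => ?_⟩
    rw [Real.dist_eq]
    have := hK0 K hK x hx
    linarith
  exact tendsto_nhds_unique h2 h3

/-- the logarithm of the local density -/
noncomputable def lw (α : ℝ) (p : ℕ) (y : UnitAddCircle) : ℝ :=
  -(2 * α) * Real.log ‖1 - (fourier 1 y : ℂ) * (((p:ℝ) ^ (-(1 / 2 : ℝ)) : ℝ) : ℂ)‖

/-- the tilted local measure -/
noncomputable def lm (α : ℝ) (p : ℕ) : Measure UnitAddCircle := (AddCircle.haarAddCircle (T := 1)).tilted (lw α p)

/-- the power series -/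
noncomputable def gs (α : ℝ) (p : ℕ) (y : UnitAddCircle) : ℂ :=
  ∑' j : ℕ, (lc α j : ℂ) * ((fourier 1 y : ℂ) * (((p:ℝ) ^ (-(1 / 2 : ℝ)) : ℝ) : ℂ)) ^ j

lemma rp_pos' {p : ℕ} (hp : p.Prime) : 0 < (p:ℝ) ^ (-(1 / 2 : ℝ)) := by
  have : (0:ℝ) < p := by exact_mod_cast hp.pos
  positivity

lemma nx {p : ℕ} (hp : p.Prime) (y : UnitAddCircle) :
    ‖(fourier 1 y : ℂ) * (((p:ℝ) ^ (-(1 / 2 : ℝ)) : ℝ) : ℂ)‖ = (p:ℝ) ^ (-(1 / 2 : ℝ)) := by
  rw [norm_mul, norm_real, Real.norm_of_nonneg (rp_pos' hp).le, fourier_apply, Circle.norm_coe, one_mul]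

lemma exp_lw {α : ℝ} (hα : 0 < α) {p : ℕ} (hp : p.Prime) (y : UnitAddCircle) :
    Real.exp (lw α p y) = ‖gs α p y‖ ^ 2 := by
  have h1 := ser_norm hα (rp_pos' hp) (half_lt_one hp.two_le) (nx hp y).le
  set x : ℂ := (fourier 1 y : ℂ) * (((p:ℝ) ^ (-(1 / 2 : ℝ)) : ℝ) : ℂ) with hx
  have h2 : 0 < ‖1 - x‖ := by
    rw [norm_pos_iff]
    intro h
    have h3 : x = 1 := by linear_combination -h
    have h4 := nx hp y
    rw [← hx, h3, norm_one] at h4
    have := half_lt_one hp.two_le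
    linarith
  have e1 : Real.exp (lw α p y) = (‖1 - x‖ ^ α)⁻¹ ^ 2 := by
    unfold lw
    rw [← hx, inv_pow, ← Real.rpow_natCast, ← Real.rpow_mul h2.le, ← Real.rpow_neg h2.le,
      Real.rpow_def_of_pos h2]
    congr 1; push_cast; ring
  rw [e1]
  have h3 : 0 < ‖1 - x‖ ^ α := by positivity
  have e2 : ‖gs α p y‖ = (‖1 - x‖ ^ α)⁻¹ := by
    unfold gs
    rw [← hx]
    field_simp
    rw [mul_comm]; exact h1
  rw [e2]

lemma lw_cont {α : ℝ} {p : ℕ} (hp : p.Prime) : Continuous (lw α p) := by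
  unfold lw
  refine Continuous.mul continuous_const (Continuous.log (by fun_prop) fun y => ?_)
  rw [norm_ne_zero_iff]
  intro h
  have h3 : (fourier 1 y : ℂ) * (((p:ℝ) ^ (-(1 / 2 : ℝ)) : ℝ) : ℂ) = 1 := by linear_combination -h
  have h4 := nx hp y
  rw [h3, norm_one] at h4
  have := half_lt_one hp.two_le
  linarith

lemma lw_int {α : ℝ} {p : ℕ} (hp : p.Prime) :
    Integrable (fun y => Real.exp (lw α p y)) (AddCircle.haarAddCircle (T := 1)) :=
  (Real.continuous_exp.comp (lw_cont hp)).integrable_of_hasCompactSupport (HasCompactSupport.of_compactSpace _)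

lemma lm_prob {α : ℝ} {p : ℕ} (hp : p.Prime) : IsProbabilityMeasure (lm α p) :=
  isProbabilityMeasure_tilted (lw_int hp)

lemma cint {f : UnitAddCircle → ℂ} (hf : Continuous f) : Integrable f (AddCircle.haarAddCircle (T := 1)) :=
  hf.integrable_of_hasCompactSupport (HasCompactSupport.of_compactSpace _)

lemma gs_term (α : ℝ) (p : ℕ) (y : UnitAddCircle) (j : ℕ) :
    (lc α j : ℂ) * ((fourier 1 y : ℂ) * (((p:ℝ) ^ (-(1 / 2 : ℝ)) : ℝ) : ℂ)) ^ j =
      ((lc α j * ((p:ℝ) ^ (-(1 / 2 : ℝ))) ^ j : ℝ) : ℂ) * fourier (j:ℤ) y := by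
  have e : (fourier (j:ℤ) y : ℂ) = (fourier 1 y : ℂ) ^ j := by
    rw [fourier_apply, fourier_apply, ← Circle.coe_pow, one_zsmul]
    congr 1
    rw [natCast_zsmul, AddCircle.toCircle_nsmul]
  rw [e, mul_pow]
  push_cast
  ring

lemma gs_cont {α : ℝ} (hα : 0 < α) {p : ℕ} (hp : p.Prime) : Continuous (gs α p) := by
  unfold gs
  refine continuous_tsum (fun j => by fun_prop) (lc_summable hα (rp_pos' hp) (half_lt_one hp.two_le))
    fun j y => ?_
  rw [norm_mul, norm_pow, norm_real, Real.norm_of_nonneg (lc_nonneg hα.le j), nx hp]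

/-- Fourier coefficients of the power series -/
lemma gs_four {α : ℝ} (hα : 0 < α) {p : ℕ} (hp : p.Prime) (n : ℕ) :
    ∫ y, (fourier (-(n:ℤ)) y : ℂ) * gs α p y ∂(AddCircle.haarAddCircle (T := 1)) =
      ((lc α n * ((p:ℝ) ^ (-(1 / 2 : ℝ))) ^ n : ℝ) : ℂ) := by
  have hs := lc_summable hα (rp_pos' hp) (half_lt_one hp.two_le)
  set r := (p:ℝ) ^ (-(1 / 2 : ℝ)) with hr
  have e1 : (fun y : UnitAddCircle => (fourier (-(n:ℤ)) y : ℂ) * gs α p y) = fun y =>
      ∑' j : ℕ, ((lc α j * r ^ j : ℝ) : ℂ) * fourier ((j:ℤ) - n) y := by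
    funext y
    unfold gs
    rw [← tsum_mul_left]
    refine tsum_congr fun j => ?_
    rw [gs_term, ← hr, sub_eq_add_neg, fourier_add]
    ring
  rw [e1, ← integral_tsum_of_summable_integral_norm]
  · rw [tsum_eq_single n]
    · rw [integral_const_mul, sub_self, TH803TW.int_fourier, if_pos rfl, mul_one]
    · intro j hj
      rw [integral_const_mul, TH803TW.int_fourier, if_neg (by omega), mul_zero]
  · intro j
    exact cint (by fun_prop)
  · refine hs.congr fun j => ?_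
    have : ∀ y : UnitAddCircle, ‖((lc α j * r ^ j : ℝ) : ℂ) * fourier ((j:ℤ) - n) y‖ = lc α j * r ^ j := by
      intro y
      rw [norm_mul, norm_real, Real.norm_of_nonneg (mul_nonneg (lc_nonneg hα.le j) (pow_nonneg (rp_pos' hp).le j)),
        fourier_apply, Circle.norm_coe, mul_one]
    simp_rw [this]
    rw [integral_const]
    simp

/-- Fourier coefficients of the local density -/
lemma den_four {α : ℝ} (hα : 0 < α) {p : ℕ} (hp : p.Prime) (n : ℕ) :
    ∫ y, (fourier (n:ℤ) y : ℂ) * ((‖gs α p y‖ ^ 2 : ℝ) : ℂ) ∂(AddCircle.haarAddCircle (T := 1)) =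
      ((∑' i : ℕ, lc α i * lc α (i + n) * ((p:ℝ) ^ (-(1 / 2 : ℝ))) ^ (i + (i + n)) : ℝ) : ℂ) := by
  have hs := lc_summable hα (rp_pos' hp) (half_lt_one hp.two_le)
  set r := (p:ℝ) ^ (-(1 / 2 : ℝ)) with hr
  have e1 : (fun y : UnitAddCircle => (fourier (n:ℤ) y : ℂ) * ((‖gs α p y‖ ^ 2 : ℝ) : ℂ)) = fun y =>
      ∑' j : ℕ, ((lc α j * r ^ j : ℝ) : ℂ) * (fourier ((n:ℤ) + j) y * conj (gs α p y)) := by
    funext y
    have e2 : ((‖gs α p y‖ ^ 2 : ℝ) : ℂ) = gs α p y * conj (gs α p y) := by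
      rw [Complex.mul_conj, Complex.normSq_eq_norm_sq]
    rw [e2]
    have e3 : gs α p y = ∑' j : ℕ, ((lc α j * r ^ j : ℝ) : ℂ) * fourier (j:ℤ) y := by
      unfold gs
      exact tsum_congr fun j => gs_term α p y j
    have e4 : (fourier (n:ℤ) y : ℂ) * (gs α p y * conj (gs α p y)) =
        gs α p y * ((fourier (n:ℤ) y : ℂ) * conj (gs α p y)) := by ring
    rw [e4]
    conv_lhs => rw [e3]
    rw [← tsum_mul_right]
    refine tsum_congr fun j => ?_
    rw [fourier_add, ← e3]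
    ring
  rw [e1, ← integral_tsum_of_summable_integral_norm]
  · rw [Complex.ofReal_tsum]
    refine tsum_congr fun j => ?_
    rw [integral_const_mul]
    have e5 : ∫ y, (fourier ((n:ℤ) + j) y : ℂ) * conj (gs α p y) ∂(AddCircle.haarAddCircle (T := 1)) =
        ((lc α (j + n) * r ^ (j + n) : ℝ) : ℂ) := by
      have e6 := gs_four hα hp (j + n)
      rw [← hr] at e6
      have e7 := congrArg conj e6
      rw [← integral_conj, Complex.conj_ofReal] at e7
      rw [← e7]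
      congr 1
      funext y
      rw [map_mul, fourier_neg, Complex.conj_conj]
      congr 2
      push_cast
      ring
    rw [e5]
    push_cast
    ring
  · intro j
    exact cint (Continuous.mul continuous_const (Continuous.mul (by fun_prop)
      (continuous_conj.comp (gs_cont hα hp))))
  · obtain ⟨C, hC⟩ : ∃ C : ℝ, ∀ y, ‖gs α p y‖ ≤ C := by
      refine ⟨∑' j : ℕ, lc α j * r ^ j, fun y => ?_⟩
      unfold gs
      refine tsum_of_norm_bounded hs.hasSum fun j => ?_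
      rw [norm_mul, norm_pow, norm_real, Real.norm_of_nonneg (lc_nonneg hα.le j), nx hp]
    refine Summable.of_nonneg_of_le (fun j => integral_nonneg fun y => norm_nonneg _) (fun j => ?_) (hs.mul_right C)
    have h1 : ∀ y : UnitAddCircle, ‖((lc α j * r ^ j : ℝ) : ℂ) * (fourier ((n:ℤ) + j) y * conj (gs α p y))‖ ≤
        lc α j * r ^ j * C := by
      intro y
      rw [norm_mul, norm_real, Real.norm_of_nonneg (mul_nonneg (lc_nonneg hα.le j) (pow_nonneg (rp_pos' hp).le j)),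
        norm_mul, fourier_apply, Circle.norm_coe, one_mul, RCLike.norm_conj]
      exact mul_le_mul_of_nonneg_left (hC y) (mul_nonneg (lc_nonneg hα.le j) (pow_nonneg (rp_pos' hp).le j))
    refine (integral_mono_of_nonneg (Filter.Eventually.of_forall fun y => norm_nonneg _) (integrable_const _)
      (Filter.Eventually.of_forall h1)).trans ?_
    rw [integral_const]
    simp

lemma exp_lw_int {α : ℝ} (hα : 0 < α) {p : ℕ} (hp : p.Prime) :
    ∫ y, Real.exp (lw α p y) ∂(AddCircle.haarAddCircle (T := 1)) = ∑' i : ℕ, lc α i ^ 2 * (1 / (p:ℝ)) ^ i := by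
  have h := den_four hα hp 0
  have e0 : (fun y : UnitAddCircle => (fourier ((0:ℕ):ℤ) y : ℂ) * ((‖gs α p y‖ ^ 2 : ℝ) : ℂ)) =
      fun y => ((Real.exp (lw α p y) : ℝ) : ℂ) := by
    funext y
    rw [Nat.cast_zero, fourier_zero, one_mul, exp_lw hα hp]
  rw [e0, integral_complex_ofReal] at h
  rw [Complex.ofReal_injective h]
  refine tsum_congr fun i => ?_
  have h2 := half_sq (p := p) hp.one_lt.le
  rw [add_zero, ← h2, ← pow_mul, ← two_mul, pow_two]

lemma lm_four_nat {α : ℝ} (hα : 0 < α) {p : ℕ} (hp : p.Prime) (n : ℕ) :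
    ∫ y, (fourier (n:ℤ) y : ℂ) ∂(lm α p) = (nu α p n : ℂ) := by
  unfold lm
  rw [integral_tilted, exp_lw_int hα hp]
  have hD := den_pos hα hp
  set D := ∑' i : ℕ, lc α i ^ 2 * (1 / (p:ℝ)) ^ i with hDd
  have e1 : (fun y : UnitAddCircle => (Real.exp (lw α p y) / D) • (fourier (n:ℤ) y : ℂ)) =
      fun y => ((D⁻¹ : ℝ) : ℂ) * ((fourier (n:ℤ) y : ℂ) * ((‖gs α p y‖ ^ 2 : ℝ) : ℂ)) := by
    funext y
    rw [exp_lw hα hp, Complex.real_smul]
    push_cast
    ring
  rw [e1, integral_const_mul, den_four hα hp]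
  have key : ∑' i : ℕ, lc α i * lc α (i + n) * ((p:ℝ) ^ (-(1 / 2 : ℝ))) ^ (i + (i + n)) =
      Real.sqrt p ^ n * (∑' i : ℕ, lc α i * lc α (i + n) * (1 / (p:ℝ)) ^ (i + n)) := by
    rw [← tsum_mul_left]
    refine tsum_congr fun i => ?_
    have h2 := half_sq (p := p) hp.one_lt.le
    have hp0 : (0:ℝ) < p := by exact_mod_cast hp.pos
    have h3 : (p:ℝ) ^ (-(1 / 2 : ℝ)) * Real.sqrt p = 1 := by
      rw [Real.sqrt_eq_rpow, ← Real.rpow_add hp0]
      norm_num
    have e3 : Real.sqrt p ^ n * (1 / (p:ℝ)) ^ (i + n) = ((p:ℝ) ^ (-(1 / 2 : ℝ))) ^ (i + (i + n)) := by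
      rw [← h2, ← pow_mul]
      have e4 : 2 * (i + n) = n + (i + (i + n)) := by omega
      rw [e4, pow_add, ← mul_assoc, ← mul_pow, mul_comm (Real.sqrt p), h3, one_pow, one_mul]
    rw [← e3]
    ring
  rw [key]
  unfold nu
  rw [← hDd, ← Complex.ofReal_mul]
  congr 1
  ring

lemma lm_four {α : ℝ} (hα : 0 < α) {p : ℕ} (hp : p.Prime) (n : ℤ) :
    ∫ y, (fourier n y : ℂ) ∂(lm α p) = (nu α p n.natAbs : ℂ) := by
  rcases Int.natAbs_eq n with h | h
  · conv_lhs => rw [h]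
    exact lm_four_nat hα hp _
  · have h1 := lm_four_nat hα hp n.natAbs
    have h2 := congrArg conj h1
    rw [← integral_conj, Complex.conj_ofReal] at h2
    rw [← h2]
    congr 1
    funext y
    rw [← fourier_neg, ← h]

end Pool.Agent.N748.MM
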