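import Pool.Agent.Y753.NL.Small

set_option autoImplicit false

/-! Dirichlet polynomials whose coefficients grow at most by a factor two under multiplication by a prime. -/

namespace Pool.Agent.N748.MM

open Finset MonoidAlgebra
open Pool.Agent.Y755
open Pool.Agent.Y753.NL
open Pool.Agent.W184.NZ
open Pool.Agent.H306R2 (lc lc_zero lc_nonneg lc_pos lc_succ)

/-- nonnegative coefficients, supported on the numbers composed of the primes in `I`, and multiplication by
a prime increases a coefficient at most by the factor two -/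
structure Sm (I : Finset ℕ) (f : P1) : Prop where
  mem : f ∈ SA1 (M1 I)
  nn : ∀ n, 0 ≤ f.coeff n
  sub : ∀ q c : ℕ, q.Prime → f.coeff (q * c) ≤ 2 * f.coeff c

lemma coeff_zero_of_notMem {I : Finset ℕ} {f : P1} (hf : f ∈ SA1 (M1 I)) {n : ℕ} (hn : n ∉ M1 I) :
    f.coeff n = 0 := by
  by_contra h
  exact hn (hf n (Finsupp.mem_support_iff.mpr h))

lemma coeff_mul_div (f g : P1) {n : ℕ} (hn : n ≠ 0) :
    (f * g).coeff n = ∑ x ∈ n.divisorsAntidiagonal, f.coeff x.1 * g.coeff x.2 := by
  refine MonoidAlgebra.coeff_mul_antidiag f g n _ ?_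
  intro p
  rw [Nat.mem_divisorsAntidiagonal]
  exact ⟨fun h => h.1, fun h => ⟨h, hn⟩⟩

lemma mul_coeff_nonneg {f g : P1} (hf : ∀ n, 0 ≤ f.coeff n) (hg : ∀ n, 0 ≤ g.coeff n) (n : ℕ) :
    0 ≤ (f * g).coeff n := by
  rw [MonoidAlgebra.coeff_mul]
  refine Finset.sum_nonneg fun a _ => Finset.sum_nonneg fun b _ => ?_
  simp only
  split_ifs
  · exact mul_nonneg (hf a) (hg b)
  · exact le_rfl

/-- the basic step -/
lemma sub_left {I J : Finset ℕ} {f g : P1} (hIJ : Disjoint I J) (hf : Sm I f) (hg : Sm J g) {q c : ℕ}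
    (hq : q.Prime) (hqI : q ∈ I) (hc : c ≠ 0) : (f * g).coeff (q * c) ≤ 2 * (f * g).coeff c := by
  have hqc : q * c ≠ 0 := mul_ne_zero hq.ne_zero hc
  rw [coeff_mul_div f g hqc, coeff_mul_div f g hc, mul_sum]
  have hinj : Set.InjOn (fun y : ℕ × ℕ => (q * y.1, y.2)) (c.divisorsAntidiagonal : Set (ℕ × ℕ)) := by
    intro a _ b _ hab
    simp only [Prod.mk.injEq] at hab
    exact Prod.ext (Nat.eq_of_mul_eq_mul_left hq.pos hab.1) hab.2
  have himg : (c.divisorsAntidiagonal).image (fun y : ℕ × ℕ => (q * y.1, y.2)) ⊆ (q * c).divisorsAntidiagonal := by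
    intro x hx
    rw [mem_image] at hx
    obtain ⟨y, hy, rfl⟩ := hx
    rw [Nat.mem_divisorsAntidiagonal] at hy ⊢
    exact ⟨by simp only; rw [mul_assoc, hy.1], hqc⟩
  rw [← sum_subset himg, sum_image hinj]
  · refine sum_le_sum fun y _ => ?_
    simp only
    have h1 := mul_le_mul_of_nonneg_right (hf.sub q y.1 hq) (hg.nn y.2)
    linarith
  · intro x hx hx'
    by_contra hne
    have h1 : f.coeff x.1 ≠ 0 := fun h => hne (by rw [h, zero_mul])
    have h2 : g.coeff x.2 ≠ 0 := fun h => hne (by rw [h, mul_zero])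
    rw [Nat.mem_divisorsAntidiagonal] at hx
    have h3 : x.2 ∈ M1 J := hg.mem _ (Finsupp.mem_support_iff.mpr h2)
    have hd : q ∣ x.1 * x.2 := by rw [hx.1]; exact dvd_mul_right q c
    rcases (Nat.Prime.dvd_mul hq).mp hd with h4 | h4
    · obtain ⟨a, ha⟩ := h4
      refine hx' ?_
      rw [mem_image]
      refine ⟨(a, x.2), ?_, ?_⟩
      · rw [Nat.mem_divisorsAntidiagonal]
        refine ⟨?_, hc⟩
        simp only
        have h5 := hx.1
        rw [ha, mul_assoc] at h5
        exact Nat.eq_of_mul_eq_mul_left hq.pos h5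
      · simp only
        rw [← ha]
    · exact (Finset.disjoint_left.mp hIJ hqI) (h3.2 q hq h4)

lemma Sm.mul {I J : Finset ℕ} {f g : P1} (hIJ : Disjoint I J) (hf : Sm I f) (hg : Sm J g) :
    Sm (I ∪ J) (f * g) := by
  have hmem : f * g ∈ SA1 (M1 (I ∪ J)) :=
    Subalgebra.mul_mem _ (SA1_mono subset_union_left hf.mem) (SA1_mono subset_union_right hg.mem)
  refine ⟨hmem, mul_coeff_nonneg hf.nn hg.nn, fun q c hq => ?_⟩
  rcases Nat.eq_zero_or_pos c with hc | hc
  · subst hc
    rw [mul_zero, coeff_zero_of_notMem hmem fun h => h.1 rfl]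
    norm_num
  have h0 := mul_coeff_nonneg hf.nn hg.nn c
  by_cases h1 : q ∈ I
  · exact sub_left hIJ hf hg hq h1 hc.ne'
  · by_cases h2 : q ∈ J
    · rw [mul_comm f g]
      exact sub_left hIJ.symm hg hf hq h2 hc.ne'
    · rw [coeff_zero_of_notMem hmem]
      · linarith
      · intro h
        have := h.2 q hq (dvd_mul_right q c)
        rw [mem_union] at this
        exact this.elim h1 h2

lemma Sm.mono {I J : Finset ℕ} {f : P1} (h : I ⊆ J) (hf : Sm I f) : Sm J f :=
  ⟨SA1_mono h hf.mem, hf.nn, hf.sub⟩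

lemma Sm.one : Sm ∅ (1 : P1) := by
  refine ⟨Subalgebra.one_mem _, fun n => ?_, fun q c hq => ?_⟩
  · rw [MonoidAlgebra.one_def, coeff_single, Finsupp.single_apply]
    split_ifs <;> norm_num
  · rw [MonoidAlgebra.one_def, coeff_single, Finsupp.single_apply, Finsupp.single_apply]
    have : ¬ (1 = q * c) := by
      intro h
      have := Nat.eq_one_of_mul_eq_one_right h.symm
      exact hq.one_lt.ne' this
    rw [if_neg this]
    split_ifs <;> norm_num

lemma lc_step {α : ℝ} (h0 : 0 < α) (h2 : α ≤ 2) (j : ℕ) : lc α (j + 1) ≤ 2 * lc α j := by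
  rw [lc_succ, mul_comm]
  refine mul_le_mul_of_nonneg_right ?_ (lc_nonneg h0.le j)
  have hj : (0:ℝ) < (j:ℝ) + 1 := by positivity
  have hj0 : (0:ℝ) ≤ (j:ℝ) := Nat.cast_nonneg j
  rw [div_le_iff₀ hj]
  linarith

lemma Lp_coeff {p : ℕ} (α : ℝ) (K n : ℕ) :
    (Lp α K p).coeff n = ∑ j ∈ range (K + 1), if p ^ j = n then lc α j else 0 := by
  unfold Lp
  rw [coeff_sum, Finsupp.finsetSum_apply]
  refine sum_congr rfl fun j _ => ?_
  rw [coeff_single, Finsupp.single_apply]

lemma Sm_Lp {α : ℝ} (h0 : 0 < α) (h2 : α ≤ 2) {p : ℕ} (hp : p.Prime) (K : ℕ) : Sm {p} (Lp α K p) := by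
  refine ⟨Lp_mem hp α K, fun n => ?_, fun q c hq => ?_⟩
  · rw [Lp_coeff]
    refine sum_nonneg fun j _ => ?_
    split_ifs
    · exact lc_nonneg h0.le j
    · exact le_rfl
  · rw [Lp_coeff, Lp_coeff]
    by_cases hqp : q = p
    · subst hqp
      rw [sum_range_succ', pow_zero, if_neg, add_zero, mul_sum, sum_range_succ]
      · have h3 : ∑ k ∈ range K, (if q ^ (k + 1) = q * c then lc α (k + 1) else 0) ≤
            ∑ k ∈ range K, 2 * (if q ^ k = c then lc α k else 0) := by
          refine sum_le_sum fun k _ => ?_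
          by_cases hk : q ^ k = c
          · rw [if_pos hk, if_pos (by rw [pow_succ, ← hk, mul_comm])]
            exact lc_step h0 h2 k
          · rw [if_neg hk, if_neg, mul_zero]
            intro h
            refine hk (Nat.eq_of_mul_eq_mul_left hq.pos ?_)
            rw [← h, pow_succ, mul_comm]
        have h4 : 0 ≤ 2 * (if q ^ K = c then lc α K else 0) := by
          split_ifs
          · have := lc_nonneg h0.le K
            linarith
          · norm_num
        linarith
      · intro h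
        have := Nat.eq_one_of_mul_eq_one_right h.symm
        exact hq.one_lt.ne' this
    · have h3 : ∑ j ∈ range (K + 1), (if p ^ j = q * c then lc α j else 0) = 0 := by
        refine sum_eq_zero fun j _ => ?_
        rw [if_neg]
        intro h
        have hd : q ∣ p ^ j := by rw [h]; exact dvd_mul_right q c
        exact hqp ((Nat.prime_dvd_prime_iff_eq hq hp).mp (hq.dvd_of_dvd_pow hd))
      rw [h3]
      refine mul_nonneg (by norm_num) (sum_nonneg fun j _ => ?_)
      split_ifs
      · exact lc_nonneg h0.le j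
      · exact le_rfl

lemma Sm_prodP {P : Finset ℕ} (hP : ∀ p ∈ P, p.Prime) {F : ℕ → P1} (hF : ∀ p ∈ P, Sm {p} (F p)) :
    Sm P (∏ p ∈ P, F p) := by
  classical
  induction P using Finset.induction_on with
  | empty => rw [prod_empty]; exact Sm.one
  | insert a s ha ih =>
    rw [prod_insert ha, insert_eq]
    refine Sm.mul (disjoint_singleton_left.mpr ha) (hF a (mem_insert_self _ _)) (ih ?_ ?_)
    · exact fun p hp => hP p (mem_insert_of_mem hp)
    · exact fun p hp => hF p (mem_insert_of_mem hp)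

lemma Sm_Az {α : ℝ} (h0 : 0 < α) (h2 : α ≤ 2) (K z : ℕ) : Sm (S0 z) (Az α K z) :=
  Sm_prodP (fun p hp => (mem_S0.mp hp).2) fun p hp => Sm_Lp h0 h2 (mem_S0.mp hp).2 K

/-! ### powers of the sum over the primes of a block -/

lemma x1_mul_coeff {I : Finset ℕ} (hI : ∀ p ∈ I, p.Prime) (g : P1) {n : ℕ} (hn : n ≠ 0) :
    (x1 I * g).coeff n = ∑ p ∈ I, if p ∣ n then g.coeff (n / p) else 0 := by
  unfold x1
  rw [sum_mul, coeff_sum, Finsupp.finsetSum_apply]
  refine sum_congr rfl fun p hp => ?_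
  have hp0 := (hI p hp).pos
  split_ifs with h
  · obtain ⟨m, rfl⟩ := h
    rw [Nat.mul_div_cancel_left m hp0]
    rw [coeff_single_mul_eq_mul_coeff m, one_mul]
    intro m' _
    exact ⟨fun h => Nat.eq_of_mul_eq_mul_left hp0 h, fun h => by rw [h]⟩
  · exact coeff_single_mul_of_forall_mul_ne _ _ fun d hd => h ⟨d, hd.symm⟩

lemma x1_pow_nonneg (I : Finset ℕ) (j n : ℕ) : 0 ≤ (x1 I ^ j).coeff n := by
  induction j generalizing n with
  | zero =>
    rw [pow_zero, MonoidAlgebra.one_def, coeff_single, Finsupp.single_apply]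
    split_ifs <;> norm_num
  | succ j ih =>
    rw [pow_succ]
    refine mul_coeff_nonneg ih (fun m => ?_) n
    unfold x1
    rw [coeff_sum, Finsupp.finsetSum_apply]
    refine sum_nonneg fun p _ => ?_
    rw [coeff_single, Finsupp.single_apply]
    split_ifs <;> norm_num

lemma x1_pow_step {I : Finset ℕ} (hI : ∀ p ∈ I, p.Prime) {q : ℕ} (hq : q.Prime) (j : ℕ) :
    ∀ n : ℕ, n ≠ 0 → (x1 I ^ (j + 1)).coeff (q * n) ≤ ((j : ℝ) + 1) * (x1 I ^ j).coeff n := by
  induction j with
  | zero =>
    intro n hn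
    have hqn : q * n ≠ 0 := mul_ne_zero hq.ne_zero hn
    rw [pow_succ, mul_comm, x1_mul_coeff hI _ hqn, pow_zero]
    simp only [Nat.cast_zero, zero_add, one_mul]
    rw [MonoidAlgebra.one_def]
    simp only [coeff_single, Finsupp.single_apply]
    by_cases h1 : n = 1
    · subst h1
      rw [if_pos rfl, mul_one]
      have h2 : ∑ p ∈ I, (if p ∣ q then (if 1 = q / p then (1:ℝ) else 0) else 0) ≤
          ∑ p ∈ I, if p = q then (1:ℝ) else 0 := by
        refine sum_le_sum fun p hp => ?_
        by_cases hpq : p = q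
        · subst hpq
          rw [if_pos (dvd_refl _), if_pos rfl]
          split_ifs <;> norm_num
        · rw [if_neg hpq]
          rw [if_neg]
          intro h
          exact hpq ((Nat.prime_dvd_prime_iff_eq (hI p hp) hq).mp h)
      refine h2.trans ?_
      rw [sum_ite_eq']
      split_ifs <;> norm_num
    · rw [if_neg (fun h => h1 h.symm)]
      refine (sum_nonpos fun p hp => ?_)
      split_ifs with h2 h3
      · exfalso
        obtain ⟨d, hd⟩ := h2
        rw [hd, Nat.mul_div_cancel_left d (hI p hp).pos] at h3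
        rw [← h3, mul_one] at hd
        have h4 : q ∣ p := ⟨n, hd.symm⟩
        have h5 := (Nat.prime_dvd_prime_iff_eq hq (hI p hp)).mp h4
        rw [← h5] at hd
        exact h1 (Nat.eq_of_mul_eq_mul_left hq.pos (by rw [hd, mul_one]))
      · exact le_rfl
      · exact le_rfl
  | succ j ih =>
    intro n hn
    have hqn : q * n ≠ 0 := mul_ne_zero hq.ne_zero hn
    rw [pow_succ, mul_comm (x1 I ^ (j + 1)), x1_mul_coeff hI _ hqn]
    have h1 : ∀ p ∈ I, (if p ∣ q * n then (x1 I ^ (j + 1)).coeff (q * n / p) else 0) ≤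
        (if p = q then (x1 I ^ (j + 1)).coeff n else 0) +
          ((j : ℝ) + 1) * (if p ∣ n then (x1 I ^ j).coeff (n / p) else 0) := by
      intro p hp
      have hp' := hI p hp
      have hnn : 0 ≤ ((j : ℝ) + 1) * (if p ∣ n then (x1 I ^ j).coeff (n / p) else 0) := by
        refine mul_nonneg (by positivity) ?_
        split_ifs
        · exact x1_pow_nonneg _ _ _
        · exact le_rfl
      by_cases hpq : p = q
      · subst hpq
        rw [if_pos (dvd_mul_right _ _), if_pos rfl, Nat.mul_div_cancel_left n hp'.pos]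
        linarith
      · rw [if_neg hpq, zero_add]
        by_cases hd : p ∣ q * n
        · rw [if_pos hd]
          have hpn : p ∣ n := by
            rcases (Nat.Prime.dvd_mul hp').mp hd with h | h
            · exact absurd ((Nat.prime_dvd_prime_iff_eq hp' hq).mp h) hpq
            · exact h
          rw [if_pos hpn, Nat.mul_div_assoc q hpn]
          refine ih (n / p) ?_
          intro h0
          rcases (Nat.div_eq_zero_iff).mp h0 with h | h
          · exact hp'.ne_zero h
          · exact absurd (Nat.le_of_dvd (Nat.pos_of_ne_zero hn) hpn) (by omega)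
        · rw [if_neg hd]; exact hnn
    refine (sum_le_sum h1).trans ?_
    rw [sum_add_distrib, ← mul_sum, ← x1_mul_coeff hI _ hn, ← pow_succ', sum_ite_eq']
    have h2 := x1_pow_nonneg I (j + 1) n
    push_cast
    split_ifs
    · linarith
    · linarith

lemma NK_coeff (K : ℕ) (a : ℝ) (f : P1) (n : ℕ) :
    (NK K a f).coeff n = ∑ k ∈ range (K + 1), a ^ k / (k.factorial : ℝ) * (f ^ k).coeff n := by
  unfold NK
  rw [coeff_sum, Finsupp.finsetSum_apply]
  refine sum_congr rfl fun k _ => ?_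
  rw [coeff_smul, Finsupp.smul_apply, smul_eq_mul]

lemma Sm_NK {I : Finset ℕ} (hI : ∀ p ∈ I, p.Prime) {a : ℝ} (h0 : 0 < a) (h2 : a ≤ 2) (K : ℕ) :
    Sm I (NK K a (x1 I)) := by
  have hmem : NK K a (x1 I) ∈ SA1 (M1 I) := NK_mem1 (x1_mem hI) K a
  have hnn : ∀ n, 0 ≤ (NK K a (x1 I)).coeff n := fun n => by
    rw [NK_coeff]
    exact sum_nonneg fun k _ => mul_nonneg (by positivity) (x1_pow_nonneg _ _ _)
  refine ⟨hmem, hnn, fun q c hq => ?_⟩
  rcases Nat.eq_zero_or_pos c with hc | hc
  · subst hc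
    rw [mul_zero, coeff_zero_of_notMem hmem fun h => h.1 rfl]
    norm_num
  rw [NK_coeff, NK_coeff, sum_range_succ', mul_sum, sum_range_succ]
  have e0 : (x1 I ^ 0).coeff (q * c) = 0 := by
    rw [pow_zero, MonoidAlgebra.one_def, coeff_single, Finsupp.single_apply, if_neg]
    intro h
    exact hq.one_lt.ne' (Nat.eq_one_of_mul_eq_one_right h.symm)
  rw [e0, mul_zero, add_zero]
  have h3 : ∑ k ∈ range K, a ^ (k + 1) / ((k + 1).factorial : ℝ) * (x1 I ^ (k + 1)).coeff (q * c) ≤
      ∑ k ∈ range K, 2 * (a ^ k / (k.factorial : ℝ) * (x1 I ^ k).coeff c) := by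
    refine sum_le_sum fun k _ => ?_
    have h4 := x1_pow_step hI hq k c hc.ne'
    have h5 := x1_pow_nonneg I k c
    have hk : (0:ℝ) < (k:ℝ) + 1 := by positivity
    have hf : (0:ℝ) < (k.factorial : ℝ) := by positivity
    calc a ^ (k + 1) / ((k + 1).factorial : ℝ) * (x1 I ^ (k + 1)).coeff (q * c)
        ≤ a ^ (k + 1) / ((k + 1).factorial : ℝ) * (((k : ℝ) + 1) * (x1 I ^ k).coeff c) :=
          mul_le_mul_of_nonneg_left h4 (by positivity)
      _ = a * (a ^ k / (k.factorial : ℝ) * (x1 I ^ k).coeff c) := by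
          rw [Nat.factorial_succ]; push_cast; field_simp; ring
      _ ≤ 2 * (a ^ k / (k.factorial : ℝ) * (x1 I ^ k).coeff c) :=
          mul_le_mul_of_nonneg_right h2 (by positivity)
  have h4 : 0 ≤ 2 * (a ^ K / (K.factorial : ℝ) * (x1 I ^ K).coeff c) := by
    have := x1_pow_nonneg I K c
    positivity
  linarith

/-- a product over disjoint blocks -/
lemma Sm_blocks {α : ℝ} (h0 : 0 < α) (h2 : α ≤ 2) {R : ℕ → ℕ} {I : ℕ → Finset ℕ} (hp : ∀ i, ∀ p ∈ I i, p.Prime)
    (hd : ∀ i j, i < j → Disjoint (I i) (I j)) (J : ℕ) :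
    Sm ((range J).biUnion I) (BS J α R I ∅) := by
  unfold BS
  induction J with
  | zero => simp only [range_zero, biUnion_empty, prod_empty]; exact Sm.one
  | succ J ih =>
    rw [prod_range_succ, range_add_one, biUnion_insert, union_comm]
    refine Sm.mul ?_ ih ?_
    · rw [disjoint_biUnion_left]
      intro i hi
      exact hd i J (mem_range.mp hi)
    · unfold bs
      rw [if_neg (notMem_empty _)]
      exact Sm_NK (hp J) h0 h2 _

/-- the resonator -/
lemma Sm_res {c α y : ℝ} {z J Rs N K : ℕ} (h : Sy c z y J Rs N K) (h0 : 0 < α) (h2 : α ≤ 2) {A0 : P1}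
    (hA : Sm (S0 z) A0) : Sm (S0 z ∪ (range J).biUnion (IZ z y)) (A0 * Bz α z y J Rs ∅) :=
  Sm.mul (dj1 J) hA (Sm_blocks h0 h2 (fun i p hp => (h.rg.pr i p hp).1) h.rg.dj J)

end Pool.Agent.N748.MM
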